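import Mathlib
import Pool.Agent.H54.Fold

set_option autoImplicit false

namespace Pool.Agent.Results.MP_10145b_nt.TwoShifts

open Pool.Agent.H54.Fold

/-- One completely multiplicative function with values 1 and -1 has bounded two-point
correlation sums along all homogeneous progressions, for all pairs of shifts whose difference
is not divisible by 4. -/
theorem result :
    ∃ f : ℕ → ℂ, (∀ n : ℕ, 1 ≤ n → ‖f n‖ = 1) ∧ (∀ n : ℕ, 1 ≤ n → f n = 1 ∨ f n = -1) ∧
      (∀ m n : ℕ, f (m * n) = f m * f n) ∧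
      ∀ h₁ h₂ : ℕ, ¬ (4 : ℤ) ∣ (h₁ : ℤ) - (h₂ : ℤ) → ∃ C : ℝ, ∀ d n : ℕ, 1 ≤ d → 1 ≤ n →
        ‖∑ k ∈ Finset.Icc 1 n, f (d * (k + h₁)) * f (d * (k + h₂))‖ ≤ C := by
  refine ⟨fun n => (f8 n : ℂ), fun n hn => ?_, fun n hn => ?_, fun m n => ?_,
    fun a b hab => ?_⟩
  · rcases f8_pm n (by omega) with h | h <;> simp [h]
  · rcases f8_pm n (by omega) with h | h <;> simp [h]
  · simp [f8_mul]
  · obtain ⟨C, hC⟩ := f8_corr a b hab
    refine ⟨C, fun d n hd _ => ?_⟩
    have hd2 : f8 d * f8 d = 1 := by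
      rcases f8_pm d (by omega) with h | h <;> simp [h]
    have h1 : ∑ k ∈ Finset.Icc 1 n, (f8 (d * (k + a)) : ℂ) * (f8 (d * (k + b)) : ℂ)
        = ((∑ k ∈ Finset.Icc 1 n, f8 (k + a) * f8 (k + b) : ℤ) : ℂ) := by
      push_cast
      refine Finset.sum_congr rfl (fun k _ => ?_)
      have : f8 (d * (k + a)) * f8 (d * (k + b)) = f8 (k + a) * f8 (k + b) := by
        rw [f8_mul, f8_mul]
        linear_combination (f8 (k + a) * f8 (k + b)) * hd2
      exact_mod_cast this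
    rw [h1, Complex.norm_intCast]
    exact_mod_cast hC n

end Pool.Agent.Results.MP_10145b_nt.TwoShifts
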